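import Pool.Agent.W798.SP.Stm2

/-!
# Sum-product: the entropy of a random ratio (part KB)
-/

set_option autoImplicit false
set_option linter.unusedSectionVars false

open Finset
open scoped Classical

namespace Pool.Agent.W748.SPY

open Pool.Agent.W904.AK Pool.Agent.W798.SP

/-- Image laws only depend on the values on the support. -/
lemma im_congr_supp {Ω α : Type} [Fintype Ω] {p : Ω → ℝ} {f g : Ω → α}
    (h : ∀ ω, p ω ≠ 0 → f ω = g ω) (a : α) : im p f a = im p g a := by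
  rw [im_eq_sum, im_eq_sum]
  refine Finset.sum_congr rfl fun x _ => ?_
  by_cases hx : p x = 0
  · simp [hx]
  · rw [h x hx]

theorem tKB (hJ : S_J) (hSR : S_SR) : S_KB := by
  intro Ω Γ _ A p Lam u n x y i hA hT hxy hy hE
  have hp : IsLaw p := hT.law
  -- the gluing
  set F : Ω → Γ × ℝ := fun ω => (Lam ω, y ω / x ω) with hF
  have hfg : ∀ t, im p F t = im p F t := fun _ => rfl
  set pG : Ω × Ω → ℝ := glue p p F F with hpG
  have hG : IsLaw pG := glue_law hp hp hfg
  set LL : Ω × Ω → Γ := fun z => Lam z.1 with hLL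
  have hsupp : ∀ z, pG z ≠ 0 → p z.1 ≠ 0 ∧ p z.2 ≠ 0 ∧ Lam z.1 = Lam z.2 ∧
      y z.1 / x z.1 = y z.2 / x z.2 := by
    intro z hz
    obtain ⟨h0, h1, h2⟩ := glue_supp hz
    have h3 := congrArg Prod.fst h0
    have h4 := congrArg Prod.snd h0
    exact ⟨h1, h2, h3, h4⟩
  have hH : H pG LL = H p Lam := H_glue_fst hp hfg Lam
  -- numbers
  set Z0 := CH p Lam (zz u) with hZ0
  set hi := CH p Lam (u i) with hhi
  set R := CH p Lam (fun ω => y ω / x ω) with hR
  -- the full pair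
  set U : Ω → Γ × (ℝ × ℝ) := fun ω => (Lam ω, (x ω, y ω)) with hU
  have hUF : Det p U F := Det.mk' (fun t => (t.1, t.2.2 / t.2.1)) fun ω _ => rfl
  have hTT : CH pG LL (fun z => (U z.1, U z.2)) = 2 * (Real.log A.card + hi) - R := by
    have e1 : H pG (fun z => (LL z, (U z.1, U z.2))) = H pG (fun z => (U z.1, U z.2)) :=
      H_congr hG (Det.mk' (fun t => t.2) fun ω _ => rfl)
        (Det.mk' (fun t => (t.1.1, t)) fun ω _ => rfl)
    have e2 : H pG (fun z => (U z.1, U z.2)) = H p U + H p U - H p F :=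
      H_glue hp hp hfg hUF hUF
    have e3 : H p U - H p Lam = Real.log A.card + hi := hE
    have e4 : H p F - H p Lam = R := rfl
    unfold CH
    rw [e1, e2, hH]
    linarith
  -- the ratio
  have hxne : ∀ ω, p ω ≠ 0 → x ω ≠ 0 := fun ω hω => (hA _ (hxy ω hω).1).ne'
  set r : Ω × Ω → ℝ := fun z => x z.2 / x z.1 with hr
  have q1 : ∀ z, pG z ≠ 0 → r z = y z.2 / y z.1 := by
    intro z hz
    obtain ⟨h1, h2, h3, h4⟩ := hsupp z hz
    simp only [hr]
    rw [div_eq_div_iff (hxne _ h1) (hxne _ h2)] at h4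
    rw [div_eq_div_iff (hxne _ h1) (hxy _ h1).2]
    linarith
  set Qx : Ω × Ω → ℝ × ℝ := fun z => (x z.1, x z.2) with hQx
  set Qy : Ω × Ω → ℝ × ℝ := fun z => (y z.1, y z.2) with hQy
  have s1 : CH pG LL (fun z => (U z.1, U z.2)) + CH pG LL r ≤ CH pG LL Qx + CH pG LL Qy := by
    apply CH_submod hG
    · exact Det.mk' (fun t => t.2.2 / t.2.1) fun ω _ => rfl
    · exact Det.mk' (fun t => t.2.2 / t.2.1) fun ω hω => q1 ω hω
    · refine Det.mk' (fun t => ((t.1, (t.2.1.1, t.2.2.1)), (t.1, (t.2.1.2, t.2.2.2))))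
        fun ω hω => ?_
      obtain ⟨h1, h2, h3, h4⟩ := hsupp ω hω
      simp only [hU, hQx, hQy, hLL]
      rw [h3]
  have cu : ∀ {α : Type} (a : Ω × Ω → α),
      CH pG (fun z => ((), LL z)) a = CH pG LL a := by
    intro α a
    exact CH_congr hG (Det.mk' (fun t => t.2) fun ω _ => rfl)
      (Det.mk' (fun t => ((), t)) fun ω _ => rfl) (Det.mk' (fun t => t.2) fun ω _ => rfl)
      (Det.mk' (fun t => t.2) fun ω _ => rfl)
  have im1 : ∀ (a : Ω → ℝ) (t : Γ × ℝ), im pG (fun z => (LL z, a z.1)) t =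
      im p (fun ω => (Lam ω, a ω)) t := by
    intro a t
    exact im_glue_fst hp hfg (fun ω => (Lam ω, a ω)) t
  have im2 : ∀ (a : Ω → ℝ) (t : Γ × ℝ), im pG (fun z => (LL z, a z.2)) t =
      im p (fun ω => (Lam ω, a ω)) t := by
    intro a t
    have e1 : im pG (fun z => (LL z, a z.2)) t = im pG (fun z => (Lam z.2, a z.2)) t := by
      apply im_congr_supp
      intro z hz
      obtain ⟨h1, h2, h3, h4⟩ := hsupp z hz
      simp only [hLL]
      rw [h3]
    rw [e1]
    exact im_glue_snd hp hfg (fun ω => (Lam ω, a ω)) t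
  have j3 := hJ p Lam u n hT i i pG LL (fun z => y z.1) (fun z => y z.2) (fun _ => ()) hG
    (fun t => by rw [im1 y, hy]) (fun t => by rw [im2 y, hy])
  rw [cu, cu] at j3
  have j4 := hSR A pG LL (fun z => x z.1) (fun z => x z.2) hA hG
    (fun z hz => ⟨(hxy _ (hsupp z hz).1).1, (hxy _ (hsupp z hz).2.1).1⟩)
  have r3' : CH pG LL (fun z => y z.2 / y z.1) ≤ CH pG LL r := by
    apply CH_mono hG
    refine Det.mk' (fun t => t.2) fun z hz => ?_
    simp only
    rw [q1 z hz]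
  rw [hTT] at s1
  have j3' : 2 * CH pG LL Qy ≤ CH pG LL (fun z => y z.2 / y z.1) + 6 * Real.log n +
    2 * (hi + hi) - 4 * Z0 + Cst n := j3
  have j4' : 2 * CH pG LL Qx ≤ CH pG LL r + Real.log (en A) := j4
  linarith

end Pool.Agent.W748.SPY
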